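import Pool.Agent.H59.L.S8.Y506.PV.Stm
/-! Project PV: from `exp (-Φ)` to the uniform measure on `{Φ ≤ 1}`. -/

set_option autoImplicit false
set_option linter.all false

namespace Pool.Agent.Y427.PV

open MeasureTheory Set Filter Topology
open scoped ENNReal InnerProductSpace
open Pool.Agent.W695.KH (Eu)
open Pool.Agent.Y506.RG (EW VW Adm EW_mono EW_add EW_const_mul EW_const VW_shift EW_nonneg)
open Pool.Agent.Y506.PV (CcW ind wPhi Hom S_MIX S_GAM S_RAD)

variable {n : ℕ}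

/-- expectations as lower integrals -/
theorem lint_EW {w : Eu (Fin n) → ℝ} (h : Adm w) (g : Eu (Fin n) → ℝ) (hg : ∀ x, 0 ≤ g x)
    (hi : Integrable fun x => g x * w x) :
    ∫⁻ x, ENNReal.ofReal (g x) * ENNReal.ofReal (w x) =
      ENNReal.ofReal (EW w g) * ENNReal.ofReal (∫ x, w x) := by
  have e1 : ∀ x, ENNReal.ofReal (g x) * ENNReal.ofReal (w x) = ENNReal.ofReal (g x * w x) :=
    fun x => (ENNReal.ofReal_mul (hg x)).symm
  simp only [e1]
  rw [← ofReal_integral_eq_lintegral_ofReal hi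
    (Eventually.of_forall fun x => mul_nonneg (hg x) (h.nonneg x)),
    ← ENNReal.ofReal_mul (EW_nonneg h g hg)]
  congr 1
  unfold EW
  rw [div_mul_cancel₀ _ h.pos.ne']

theorem ind_lint {K : Set (Eu (Fin n))} (hK : MeasurableSet K) (F : Eu (Fin n) → ℝ≥0∞) :
    ∫⁻ x, F x * ENNReal.ofReal (ind K x) = ∫⁻ x in K, F x := by
  rw [← lintegral_indicator hK]
  refine lintegral_congr fun x => ?_
  unfold ind
  by_cases hx : x ∈ K
  · simp [hx]
  · simp [hx]

theorem VW_const_mul (w f : Eu (Fin n) → ℝ) (c : ℝ) :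
    VW w (fun x => c * f x) = c ^ 2 * VW w f := by
  unfold VW
  rw [EW_const_mul]
  have : (fun x => (c * f x) ^ 2) = fun x => c ^ 2 * f x ^ 2 := by
    funext x
    ring
  rw [this, EW_const_mul]
  ring

theorem lin_int {w : Eu (Fin n) → ℝ} (hw : Adm w) {k : ℕ} (T : Eu (Fin n) →ₗ[ℝ] Eu (Fin k))
    (θ : Eu (Fin k)) :
    (Integrable fun x => ⟪T x, θ⟫_ℝ * w x) ∧ Integrable fun x => ⟪T x, θ⟫_ℝ ^ 2 * w x := by
  have hT : Continuous T := T.continuous_of_finiteDimensional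
  set L := LinearMap.toContinuousLinearMap T with hL
  have hb : ∀ x, |⟪T x, θ⟫_ℝ| ≤ ‖L‖ * ‖θ‖ * ‖x‖ := by
    intro x
    calc |⟪T x, θ⟫_ℝ| ≤ ‖T x‖ * ‖θ‖ := abs_real_inner_le_norm _ _
      _ ≤ (‖L‖ * ‖x‖) * ‖θ‖ := mul_le_mul_of_nonneg_right (L.le_opNorm x) (norm_nonneg _)
      _ = _ := by ring
  have hm : Measurable fun x => ⟪T x, θ⟫_ℝ := (hT.inner continuous_const).measurable
  constructor
  · refine hw.of_bd _ hm (‖L‖ * ‖θ‖) fun x => (hb x).trans ?_
    refine mul_le_mul_of_nonneg_left ?_ (by positivity)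
    nlinarith [sq_nonneg (‖x‖ - 1), norm_nonneg x]
  · refine hw.of_bd _ (hm.pow_const 2) ((‖L‖ * ‖θ‖) ^ 2) fun x => ?_
    rw [abs_of_nonneg (sq_nonneg _), ← sq_abs]
    calc |⟪T x, θ⟫_ℝ| ^ 2 ≤ (‖L‖ * ‖θ‖ * ‖x‖) ^ 2 := pow_le_pow_left₀ (abs_nonneg _) (hb x) 2
      _ = (‖L‖ * ‖θ‖) ^ 2 * ‖x‖ ^ 2 := by ring
      _ ≤ _ := mul_le_mul_of_nonneg_left (by linarith) (sq_nonneg _)

theorem mean_vec {w : Eu (Fin n) → ℝ} (hw : Adm w) {k : ℕ} (T : Eu (Fin n) →ₗ[ℝ] Eu (Fin k)) :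
    ∃ m : Eu (Fin k), ∀ θ, EW w (fun x => ⟪T x, θ⟫_ℝ) = ⟪m, θ⟫_ℝ := by
  let φ : Eu (Fin k) →ₗ[ℝ] ℝ :=
    { toFun := fun θ => EW w (fun x => ⟪T x, θ⟫_ℝ)
      map_add' := fun a b => by
        simp only [inner_add_right]
        exact EW_add _ _ (lin_int hw T a).1 (lin_int hw T b).1
      map_smul' := fun c a => by
        simp only [inner_smul_right, RingHom.id_apply, smul_eq_mul]
        exact EW_const_mul w _ c }
  refine ⟨(InnerProductSpace.toDual ℝ (Eu (Fin k))).symm (LinearMap.toContinuousLinearMap φ),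
    fun θ => ?_⟩
  rw [InnerProductSpace.toDual_symm_apply]
  rfl

/-- second moments are bounded by the norm -/
theorem VW_le_norm (w : Eu (Fin n) → ℝ) {k : ℕ} (T : Eu (Fin n) →ₗ[ℝ] Eu (Fin k)) (s : ℝ)
    (hT : ∀ θ : Eu (Fin k), ‖θ‖ = 1 → VW w (fun x => ⟪T x, θ⟫_ℝ) ≤ s) (θ : Eu (Fin k)) :
    VW w (fun x => ⟪T x, θ⟫_ℝ) ≤ s * ‖θ‖ ^ 2 := by
  by_cases h0 : θ = 0
  · rw [h0]
    simp only [inner_zero_right, norm_zero]
    unfold VW EW
    simp
  · have hn0 : ‖θ‖ ≠ 0 := norm_ne_zero_iff.2 h0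
    have h1 := hT (‖θ‖⁻¹ • θ) (by rw [norm_smul, norm_inv, norm_norm, inv_mul_cancel₀ hn0])
    have h2 : (fun x => ⟪T x, θ⟫_ℝ) = fun x => ‖θ‖ * ⟪T x, ‖θ‖⁻¹ • θ⟫_ℝ := by
      funext x
      rw [inner_smul_right, ← mul_assoc, mul_inv_cancel₀ hn0, one_mul]
    rw [h2, VW_const_mul, mul_comm]
    exact mul_le_mul_of_nonneg_right h1 (sq_nonneg _)

theorem lip_fd {k : ℕ} (v : Eu (Fin k) → ℝ) (hv : ContDiff ℝ 1 v) (l : ℝ)
    (hl : ∀ y, ‖fderiv ℝ v y‖ ≤ l) (a b : Eu (Fin k)) : (v a - v b) ^ 2 ≤ l ^ 2 * ‖a - b‖ ^ 2 := by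
  have h := (convex_univ (𝕜 := ℝ) (E := Eu (Fin k))).norm_image_sub_le_of_norm_fderiv_le
    (fun x _ => (hv.differentiable one_ne_zero) x) (fun x _ => hl x) (mem_univ b) (mem_univ a)
  rw [← mul_pow, ← sq_abs]
  exact pow_le_pow_left₀ (abs_nonneg _) h 2

/-- Removing the mean. -/
theorem center {w : Eu (Fin n) → ℝ} (hw : Adm w) {k : ℕ} (T : Eu (Fin n) →ₗ[ℝ] Eu (Fin k)) (s : ℝ)
    (hs : 0 < s)
    (hT : ∀ θ : Eu (Fin k), ‖θ‖ = 1 → VW w (fun x => ⟪T x, θ⟫_ℝ) ≤ s) :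
    ∃ (T' : Eu (Fin n) →ₗ[ℝ] Eu (Fin k)) (a : Eu (Fin k)) (g : Eu (Fin n) → ℝ),
      (∀ x, ‖T x - (T' x + a)‖ ^ 2 ≤ g x) ∧ Measurable g ∧ (∀ x, 0 ≤ g x) ∧
      (Integrable fun x => g x * w x) ∧ EW w g ≤ s ∧
      ∀ θ : Eu (Fin k), EW w (fun x => ⟪T' x, θ⟫_ℝ ^ 2) ≤ s * ‖θ‖ ^ 2 := by
  obtain ⟨m, hm⟩ := mean_vec hw T
  obtain ⟨τ, hτ⟩ : ∃ τ : ℝ, τ = ‖m‖ := ⟨_, rfl⟩
  obtain ⟨e, he⟩ : ∃ e : Eu (Fin k), e = τ⁻¹ • m := ⟨_, rfl⟩
  have he1 : ‖e‖ ≤ 1 := by
    rw [he, norm_smul, norm_inv, Real.norm_eq_abs, ← hτ, abs_of_nonneg (hτ ▸ norm_nonneg m)]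
    by_cases h0 : τ = 0
    · rw [h0]; simp
    · rw [inv_mul_cancel₀ h0]
  have hτe : τ • e = m := by
    by_cases h0 : τ = 0
    · rw [h0, zero_smul]
      exact (norm_eq_zero.1 (hτ ▸ h0)).symm
    · rw [he, smul_smul, mul_inv_cancel₀ h0, one_smul]
  have hme : ⟪m, e⟫_ℝ = τ := by
    rw [he, inner_smul_right, real_inner_self_eq_norm_sq, ← hτ]
    by_cases h0 : τ = 0
    · rw [h0]; simp
    · field_simp
  let T' : Eu (Fin n) →ₗ[ℝ] Eu (Fin k) :=
    { toFun := fun x => T x - ⟪T x, e⟫_ℝ • e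
      map_add' := fun x y => by
        rw [map_add, inner_add_left, add_smul]
        abel
      map_smul' := fun c x => by
        rw [map_smul, real_inner_smul_left, mul_smul, smul_sub]
        rfl }
  have hT' : ∀ x θ, ⟪T' x, θ⟫_ℝ = ⟪T x, θ - ⟪e, θ⟫_ℝ • e⟫_ℝ := by
    intro x θ
    change ⟪T x - ⟪T x, e⟫_ℝ • e, θ⟫_ℝ = _
    rw [inner_sub_left, real_inner_smul_left, inner_sub_right, inner_smul_right]
    ring
  refine ⟨T', m, fun x => (⟪T x, e⟫_ℝ - τ) ^ 2, ?_, ?_, fun x => sq_nonneg _, ?_, ?_, ?_⟩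
  · intro x
    have h1 : T x - (T' x + m) = (⟪T x, e⟫_ℝ - τ) • e := by
      change T x - (T x - ⟪T x, e⟫_ℝ • e + m) = _
      rw [sub_smul, hτe]
      abel
    rw [h1, norm_smul, mul_pow, Real.norm_eq_abs, sq_abs]
    have h2 : ‖e‖ ^ 2 ≤ 1 := pow_le_one₀ (norm_nonneg _) he1
    exact mul_le_of_le_one_right (sq_nonneg _) h2
  · have hTc : Continuous T := T.continuous_of_finiteDimensional
    exact (((hTc.inner continuous_const).sub continuous_const).pow 2).measurable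
  · have h1 := (lin_int hw T e).1
    have h2 := (lin_int hw T e).2
    have h3 := hw.one
    have := (h2.add (h1.const_mul (-(2 * τ)))).add (h3.const_mul (τ ^ 2))
    refine this.congr (Eventually.of_forall fun x => ?_)
    simp only [Pi.add_apply]
    ring
  · rw [VW_shift hw _ (lin_int hw T e).1 (lin_int hw T e).2, hm, hme, sub_self]
    have := VW_le_norm w T s hT e
    have h2 : ‖e‖ ^ 2 ≤ 1 := pow_le_one₀ (norm_nonneg _) he1
    nlinarith
  · intro θ
    have h1 : (fun x => ⟪T' x, θ⟫_ℝ ^ 2) = fun x => (⟪T x, θ - ⟪e, θ⟫_ℝ • e⟫_ℝ - 0) ^ 2 := by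
      funext x
      rw [hT', sub_zero]
    rw [h1, VW_shift hw _ (lin_int hw T _).1 (lin_int hw T _).2, hm]
    have h2 : ⟪m, θ - ⟪e, θ⟫_ℝ • e⟫_ℝ = 0 := by
      rw [inner_sub_right, inner_smul_right, hme]
      conv_lhs => rw [← hτe]
      rw [real_inner_smul_left]
      ring
    rw [h2]
    have h3 := VW_le_norm w T s hT (θ - ⟪e, θ⟫_ℝ • e)
    have h4 : ‖θ - ⟪e, θ⟫_ℝ • e‖ ^ 2 ≤ ‖θ‖ ^ 2 := by
      rw [norm_sub_sq_real, inner_smul_right, norm_smul, mul_pow, Real.norm_eq_abs, sq_abs,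
        real_inner_comm θ e]
      have h5 : ‖e‖ ^ 2 ≤ 1 := pow_le_one₀ (norm_nonneg _) he1
      nlinarith [sq_nonneg ⟪e, θ⟫_ℝ, mul_le_mul_of_nonneg_left h5 (sq_nonneg ⟪e, θ⟫_ℝ)]
    nlinarith

set_option maxHeartbeats 4000000 in
theorem core (ρ : Measure ℝ) (K : Set (Eu (Fin n))) (w : Eu (Fin n) → ℝ) (B R q κ κ' δ : ℝ)
    (hn : 1 ≤ n) (hB : 0 < B) (hR : 0 < R) (hq : 0 ≤ q) (hκ' : 0 < κ') (hδ : 0 < δ)
    (h1 : κ' ≤ κ / 2) (h2 : κ' ^ 2 * (6 * (1 + q)) ≤ δ) (hρ : ρ univ = ENNReal.ofReal B)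
    (hm2 : ∫⁻ r, ENNReal.ofReal ((r - R) ^ 2) ∂ρ ≤ ENNReal.ofReal (q / n * R ^ 2 * B))
    (hm3 : ∫⁻ r, ENNReal.ofReal (r ^ 2) ∂ρ ≤ ENNReal.ofReal (4 * R ^ 2 * B))
    (hKm : MeasurableSet K) (hKv : volume K ≠ ⊤) (hK : Adm (ind K)) (hw : Adm w)
    (mix : ∀ F : Eu (Fin n) → ℝ≥0∞, Measurable F → ∫⁻ x, F x * ENNReal.ofReal (w x) =
      ∫⁻ r, (∫⁻ y in K, F (r • y)) ∂ρ)
    (hc : CcW κ (δ / 6) w) : CcW κ' δ (ind K) := by
  intro k hk T s hs hT v hv hv1 hv2
  obtain ⟨V, hV⟩ : ∃ V, V = volume K := ⟨_, rfl⟩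
  have hVt : V ≠ ⊤ := hV ▸ hKv
  have hVI : ENNReal.ofReal (∫ x, ind K x) = V := by
    rw [ofReal_integral_eq_lintegral_ofReal hK.one (Eventually.of_forall hK.nonneg)]
    have := ind_lint hKm (fun _ => 1)
    simp only [one_mul] at this
    rw [this, setLIntegral_one, hV]
  have hV0 : V ≠ 0 := by
    rw [← hVI]
    exact (ENNReal.ofReal_pos.2 hK.pos).ne'
  have hWI : ENNReal.ofReal (∫ x, w x) = ENNReal.ofReal B * V := by
    rw [ofReal_integral_eq_lintegral_ofReal hw.one (Eventually.of_forall hw.nonneg)]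
    have := mix (fun _ => 1) measurable_const
    simp only [one_mul, lintegral_const, Measure.restrict_apply_univ] at this
    rw [this, hρ, hV, mul_comm]
  have hB0 : ENNReal.ofReal B ≠ 0 := (ENNReal.ofReal_pos.2 hB).ne'
  have hBV0 : ENNReal.ofReal B * V ≠ 0 := mul_ne_zero hB0 hV0
  have hBVt : ENNReal.ofReal B * V ≠ ⊤ := ENNReal.mul_ne_top ENNReal.ofReal_ne_top hVt
  obtain ⟨T', a, g, hg1, hgm, hg0, hgi, hgs, hT's⟩ := center hK T s hs hT
  have hT'c : Continuous T' := T'.continuous_of_finiteDimensional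
  have hTc : Continuous T := T.continuous_of_finiteDimensional
  -- second moments of `T'`
  have hL1 : ∀ θ : Eu (Fin k), ∫⁻ y in K, ENNReal.ofReal (⟪T' y, θ⟫_ℝ ^ 2) ≤
      ENNReal.ofReal (s * ‖θ‖ ^ 2) * V := by
    intro θ
    rw [← ind_lint hKm, lint_EW hK _ (fun x => sq_nonneg _) (lin_int hK T' θ).2, hVI]
    exact mul_le_mul_left (ENNReal.ofReal_le_ofReal (hT's θ)) _
  have hL2 : ∫⁻ y in K, ENNReal.ofReal (‖T' y‖ ^ 2) ≤ ENNReal.ofReal (n * s) * V := by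
    have e1 : ∀ y, ENNReal.ofReal (‖T' y‖ ^ 2) =
        ∑ j, ENNReal.ofReal (⟪T' y, EuclideanSpace.single j (1 : ℝ)⟫_ℝ ^ 2) := by
      intro y
      rw [← ENNReal.ofReal_sum_of_nonneg fun j _ => sq_nonneg _, EuclideanSpace.norm_sq_eq]
      congr 1
      refine Finset.sum_congr rfl fun j _ => ?_
      rw [EuclideanSpace.inner_single_right, Real.norm_eq_abs, sq_abs]
      simp
    simp only [e1]
    rw [lintegral_finsetSum]
    · calc ∑ j : Fin k, ∫⁻ y in K, ENNReal.ofReal (⟪T' y, EuclideanSpace.single j (1 : ℝ)⟫_ℝ ^ 2)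
          ≤ ∑ j : Fin k, ENNReal.ofReal s * V := by
            refine Finset.sum_le_sum fun j _ => ?_
            refine (hL1 _).trans (le_of_eq ?_)
            simp
        _ = ENNReal.ofReal (k * s) * V := by
            rw [Finset.sum_const, Finset.card_univ, Fintype.card_fin, nsmul_eq_mul, ← mul_assoc,
              ENNReal.ofReal_mul (Nat.cast_nonneg k), ENNReal.ofReal_natCast]
        _ ≤ _ := by
            refine mul_le_mul_left (ENNReal.ofReal_le_ofReal ?_) _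
            exact mul_le_mul_of_nonneg_right (Nat.cast_le.2 hk) hs.le
    · intro j _
      exact ((hT'c.inner continuous_const).pow 2).measurable.ennreal_ofReal
  have hL3 : ∫⁻ y in K, ENNReal.ofReal (g y) ≤ ENNReal.ofReal s * V := by
    rw [← ind_lint hKm, lint_EW hK _ hg0 hgi, hVI]
    exact mul_le_mul_left (ENNReal.ofReal_le_ofReal hgs) _
  -- the concentration hypothesis
  let T2 : Eu (Fin n) →ₗ[ℝ] Eu (Fin k) := R⁻¹ • T'
  have hT2c : Continuous T2 := T2.continuous_of_finiteDimensional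
  have hT2 : ∀ x, T2 x = R⁻¹ • T' x := fun x => rfl
  let v' : Eu (Fin k) → ℝ := fun z => v (z + a)
  have hv'c : ContDiff ℝ 1 v' := hv.comp (contDiff_id.add contDiff_const)
  have hv'1 : ∀ y, |v' y| ≤ 1 := fun y => hv1 _
  have hss : 0 < Real.sqrt s := Real.sqrt_pos.2 hs
  have hv'2 : ∀ y, ‖fderiv ℝ v' y‖ ≤ κ' / Real.sqrt s := by
    intro y
    have : fderiv ℝ v' y = fderiv ℝ v (y + a) := fderiv_comp_add_right a
    rw [this]
    exact hv2 _
  have h4s : Real.sqrt (4 * s) = 2 * Real.sqrt s := by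
    rw [Real.sqrt_mul (by norm_num)]
    congr 1
    rw [show (4 : ℝ) = 2 ^ 2 by norm_num]
    exact Real.sqrt_sq (by norm_num)
  have hD := hc k hk T2 (4 * s) (by linarith) (by
    intro θ hθ
    have i1 := lin_int hw T2 θ
    have e1 : VW w (fun x => ⟪T2 x, θ⟫_ℝ) ≤ EW w (fun x => ⟪T2 x, θ⟫_ℝ ^ 2) := by
      unfold VW
      linarith [sq_nonneg (EW w fun x => ⟪T2 x, θ⟫_ℝ)]
    refine e1.trans ?_
    have e2 := lint_EW hw _ (fun x => sq_nonneg ⟪T2 x, θ⟫_ℝ) i1.2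
    rw [mix (fun x => ENNReal.ofReal (⟪T2 x, θ⟫_ℝ ^ 2))
      (((hT2c.inner continuous_const).pow 2).measurable.ennreal_ofReal), hWI] at e2
    have e3 : ∀ r : ℝ, ∫⁻ y in K, ENNReal.ofReal (⟪T2 (r • y), θ⟫_ℝ ^ 2) ≤
        ENNReal.ofReal (r ^ 2) * (ENNReal.ofReal ((R⁻¹) ^ 2 * s) * V) := by
      intro r
      have e4 : ∀ y, ENNReal.ofReal (⟪T2 (r • y), θ⟫_ℝ ^ 2) =
          ENNReal.ofReal (r ^ 2) * ENNReal.ofReal ((R⁻¹) ^ 2) * ENNReal.ofReal (⟪T' y, θ⟫_ℝ ^ 2) := by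
        intro y
        rw [← ENNReal.ofReal_mul (sq_nonneg _), ← ENNReal.ofReal_mul (by positivity)]
        congr 1
        rw [hT2, map_smul, real_inner_smul_left, real_inner_smul_left]
        ring
      simp only [e4]
      rw [lintegral_const_mul' _ _ (ENNReal.mul_ne_top ENNReal.ofReal_ne_top ENNReal.ofReal_ne_top),
        mul_assoc]
      refine mul_le_mul_right ?_ _
      rw [ENNReal.ofReal_mul (sq_nonneg _), mul_assoc]
      refine mul_le_mul_right ?_ _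
      have := hL1 θ
      rw [hθ] at this
      simpa using this
    have e5 : ENNReal.ofReal (EW w fun x => ⟪T2 x, θ⟫_ℝ ^ 2) * (ENNReal.ofReal B * V) ≤
        ENNReal.ofReal (4 * s) * (ENNReal.ofReal B * V) := by
      rw [← e2]
      calc ∫⁻ r, (∫⁻ y in K, ENNReal.ofReal (⟪T2 (r • y), θ⟫_ℝ ^ 2)) ∂ρ
          ≤ ∫⁻ r, ENNReal.ofReal (r ^ 2) * (ENNReal.ofReal ((R⁻¹) ^ 2 * s) * V) ∂ρ :=
            lintegral_mono e3
        _ = (∫⁻ r, ENNReal.ofReal (r ^ 2) ∂ρ) * (ENNReal.ofReal ((R⁻¹) ^ 2 * s) * V) :=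
            lintegral_mul_const' _ _ (ENNReal.mul_ne_top ENNReal.ofReal_ne_top hVt)
        _ ≤ ENNReal.ofReal (4 * R ^ 2 * B) * (ENNReal.ofReal ((R⁻¹) ^ 2 * s) * V) :=
            mul_le_mul_left hm3 _
        _ = _ := by
            rw [← mul_assoc, ← mul_assoc, ← ENNReal.ofReal_mul (by positivity),
              ← ENNReal.ofReal_mul (by positivity)]
            congr 2
            field_simp
    have e6 := (ENNReal.mul_le_mul_iff_left hBV0 hBVt).1 e5
    exact (ENNReal.ofReal_le_ofReal_iff (by positivity)).1 e6) v' hv'c hv'1 (by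
    intro y
    refine (hv'2 y).trans ?_
    rw [h4s]
    calc κ' / Real.sqrt s ≤ (κ / 2) / Real.sqrt s := div_le_div_of_nonneg_right h1 hss.le
      _ = κ / (2 * Real.sqrt s) := by rw [div_div])
  obtain ⟨c, hcd⟩ : ∃ c, c = EW w (fun x => v' (T2 x)) := ⟨_, rfl⟩
  have hv'm : Measurable fun x => v' (T2 x) := (hv'c.continuous.comp hT2c).measurable
  have hvm : Measurable fun x => v (T x) := (hv.continuous.comp hTc).measurable
  have hi1 : Integrable fun x => v' (T2 x) * w x := hw.bdd _ hv'm 1 fun x => hv'1 _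
  have hi2 : Integrable fun x => v' (T2 x) ^ 2 * w x := hw.bdd _ (hv'm.pow_const 2) 1 fun x => by
    rw [abs_pow]
    exact pow_le_one₀ (abs_nonneg _) (hv'1 _)
  have hE := VW_shift hw _ hi1 hi2 c
  rw [← hcd, sub_self] at hE
  have hcb : Integrable fun x => (v' (T2 x) - c) ^ 2 * w x := by
    refine hw.bdd _ ((hv'm.sub_const c).pow_const 2) ((1 + |c|) ^ 2) fun x => ?_
    rw [abs_pow]
    refine pow_le_pow_left₀ (abs_nonneg _) ((abs_sub _ _).trans ?_) 2
    linarith [hv'1 (T2 x)]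
  have hL4 : ∫⁻ r, (∫⁻ y in K, ENNReal.ofReal ((v' (T2 (r • y)) - c) ^ 2)) ∂ρ ≤
      ENNReal.ofReal (δ / 6 * B) * V := by
    rw [← mix (fun x => ENNReal.ofReal ((v' (T2 x) - c) ^ 2))
      ((hv'm.sub_const c).pow_const 2).ennreal_ofReal, lint_EW hw _ (fun x => sq_nonneg _) hcb,
      hWI, ENNReal.ofReal_mul (by positivity), mul_assoc]
    refine mul_le_mul_left (ENNReal.ofReal_le_ofReal ?_) _
    rw [hE]
    linarith
  -- the final estimate
  obtain ⟨l, hl⟩ : ∃ l, l = κ' / Real.sqrt s := ⟨_, rfl⟩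
  have hl0 : 0 < l := by rw [hl]; positivity
  have hls : l ^ 2 * s = κ' ^ 2 := by
    rw [hl, div_pow, Real.sq_sqrt hs.le]
    field_simp
  have hj1 : Integrable fun x => v (T x) * ind K x := hK.bdd _ hvm 1 fun x => hv1 _
  have hj2 : Integrable fun x => v (T x) ^ 2 * ind K x := hK.bdd _ (hvm.pow_const 2) 1 fun x => by
    rw [abs_pow]
    exact pow_le_one₀ (abs_nonneg _) (hv1 _)
  have hF := VW_shift hK _ hj1 hj2 c
  have hjb : Integrable fun x => (v (T x) - c) ^ 2 * ind K x := by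
    refine hK.bdd _ ((hvm.sub_const c).pow_const 2) ((1 + |c|) ^ 2) fun x => ?_
    rw [abs_pow]
    refine pow_le_pow_left₀ (abs_nonneg _) ((abs_sub _ _).trans ?_) 2
    linarith [hv1 (T x)]
  have hle : VW (ind K) (fun x => v (T x)) ≤ EW (ind K) (fun x => (v (T x) - c) ^ 2) := by
    rw [hF]
    linarith [sq_nonneg (EW (ind K) (fun x => v (T x)) - c)]
  refine hle.trans ?_
  have hG := lint_EW hK _ (fun x => sq_nonneg (v (T x) - c)) hjb
  rw [ind_lint hKm, hVI] at hG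
  have hpt : ∀ (r : ℝ) (y : Eu (Fin n)), ENNReal.ofReal ((v (T y) - c) ^ 2) ≤
      ENNReal.ofReal (3 * l ^ 2) * ENNReal.ofReal (g y) +
      (ENNReal.ofReal (3 * l ^ 2 * (R⁻¹) ^ 2 * (r - R) ^ 2) * ENNReal.ofReal (‖T' y‖ ^ 2) +
      ENNReal.ofReal 3 * ENNReal.ofReal ((v' (T2 (r • y)) - c) ^ 2)) := by
    intro r y
    rw [← ENNReal.ofReal_mul (by positivity), ← ENNReal.ofReal_mul (by positivity),
      ← ENNReal.ofReal_mul (by positivity),
      ← ENNReal.ofReal_add (by positivity) (by positivity),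
      ← ENNReal.ofReal_add (mul_nonneg (by positivity) (hg0 y)) (by positivity)]
    refine ENNReal.ofReal_le_ofReal ?_
    have a1 := lip_fd v hv l (fun y => hl ▸ hv2 y) (T y) (T' y + a)
    have a2 := lip_fd v' hv'c l (fun y => hl ▸ hv'2 y) (T' y) (T2 (r • y))
    have a3 : ‖T' y - T2 (r • y)‖ ^ 2 = (R⁻¹) ^ 2 * (r - R) ^ 2 * ‖T' y‖ ^ 2 := by
      have : T' y - T2 (r • y) = (R⁻¹ * (R - r)) • T' y := by
        rw [hT2, map_smul, smul_smul, mul_sub, inv_mul_cancel₀ hR.ne', sub_smul, one_smul]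
      rw [this, norm_smul, mul_pow, Real.norm_eq_abs, sq_abs]
      ring
    rw [a3] at a2
    have a4 : (v (T y) - v (T' y + a)) ^ 2 ≤ l ^ 2 * g y :=
      a1.trans (mul_le_mul_of_nonneg_left (hg1 y) (sq_nonneg _))
    have a5 : v' (T' y) = v (T' y + a) := rfl
    rw [a5] at a2
    nlinarith [sq_nonneg ((v (T y) - v (T' y + a)) - (v (T' y + a) - v' (T2 (r • y)))),
      sq_nonneg ((v (T y) - v (T' y + a)) - (v' (T2 (r • y)) - c)),
      sq_nonneg ((v (T' y + a) - v' (T2 (r • y))) - (v' (T2 (r • y)) - c))]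
  have hin : ∀ r : ℝ, ∫⁻ y in K, ENNReal.ofReal ((v (T y) - c) ^ 2) ≤
      ENNReal.ofReal (3 * l ^ 2) * (ENNReal.ofReal s * V) +
      (ENNReal.ofReal ((r - R) ^ 2) *
        (ENNReal.ofReal (3 * l ^ 2 * (R⁻¹) ^ 2) * (ENNReal.ofReal (n * s) * V)) +
      ENNReal.ofReal 3 * ∫⁻ y in K, ENNReal.ofReal ((v' (T2 (r • y)) - c) ^ 2)) := by
    intro r
    refine (lintegral_mono (hpt r)).trans ?_
    have m1 : Measurable fun y => ENNReal.ofReal (3 * l ^ 2) * ENNReal.ofReal (g y) :=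
      hgm.ennreal_ofReal.const_mul _
    have m2 : Measurable fun y => ENNReal.ofReal (3 * l ^ 2 * (R⁻¹) ^ 2 * (r - R) ^ 2) *
        ENNReal.ofReal (‖T' y‖ ^ 2) :=
      ((hT'c.norm.pow 2).measurable.ennreal_ofReal).const_mul _
    rw [lintegral_add_left m1, lintegral_add_left m2,
      lintegral_const_mul' _ _ ENNReal.ofReal_ne_top, lintegral_const_mul' _ _ ENNReal.ofReal_ne_top,
      lintegral_const_mul' _ _ ENNReal.ofReal_ne_top]
    refine add_le_add (mul_le_mul_right hL3 _) (add_le_add ?_ le_rfl)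
    rw [← mul_assoc, ← ENNReal.ofReal_mul (sq_nonneg _), mul_comm ((r - R) ^ 2)]
    exact mul_le_mul_right hL2 _
  have hfin : ENNReal.ofReal (EW (ind K) fun x => (v (T x) - c) ^ 2) * (ENNReal.ofReal B * V) ≤
      ENNReal.ofReal δ * (ENNReal.ofReal B * V) := by
    have b1 : ENNReal.ofReal (EW (ind K) fun x => (v (T x) - c) ^ 2) * (ENNReal.ofReal B * V) =
        ∫⁻ r, (∫⁻ y in K, ENNReal.ofReal ((v (T y) - c) ^ 2)) ∂ρ := by
      rw [lintegral_const, hρ, hG]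
      ring
    rw [b1]
    refine (lintegral_mono hin).trans ?_
    have m2 : Measurable fun r : ℝ => ENNReal.ofReal ((r - R) ^ 2) *
        (ENNReal.ofReal (3 * l ^ 2 * (R⁻¹) ^ 2) * (ENNReal.ofReal (n * s) * V)) := by
      refine Measurable.mul_const ?_ _
      exact ((measurable_id.sub_const R).pow_const 2).ennreal_ofReal
    rw [lintegral_add_left measurable_const, lintegral_add_left m2, lintegral_const, hρ,
      lintegral_mul_const' _ _ (ENNReal.mul_ne_top ENNReal.ofReal_ne_top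
        (ENNReal.mul_ne_top ENNReal.ofReal_ne_top hVt)),
      lintegral_const_mul' _ _ ENNReal.ofReal_ne_top]
    refine (add_le_add le_rfl (add_le_add (mul_le_mul_left hm2 _) (mul_le_mul_right hL4 _))).trans ?_
    have hn0 : (0 : ℝ) < n := by exact_mod_cast hn
    have c1 : ENNReal.ofReal (3 * l ^ 2) * (ENNReal.ofReal s * V) * ENNReal.ofReal B =
        ENNReal.ofReal (3 * κ' ^ 2 * B) * V := by
      calc _ = (ENNReal.ofReal (3 * l ^ 2) * ENNReal.ofReal s * ENNReal.ofReal B) * V := by ring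
        _ = ENNReal.ofReal (3 * l ^ 2 * s * B) * V := by
            rw [← ENNReal.ofReal_mul (by positivity), ← ENNReal.ofReal_mul (by positivity)]
        _ = _ := by
            rw [← hls]
            congr 2
            ring
    have c2 : ENNReal.ofReal (q / n * R ^ 2 * B) *
        (ENNReal.ofReal (3 * l ^ 2 * (R⁻¹) ^ 2) * (ENNReal.ofReal (n * s) * V)) =
        ENNReal.ofReal (3 * q * κ' ^ 2 * B) * V := by
      rw [← mul_assoc, ← mul_assoc, ← ENNReal.ofReal_mul (by positivity),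
        ← ENNReal.ofReal_mul (by positivity), ← hls]
      congr 2
      field_simp
    have c3 : ENNReal.ofReal 3 * (ENNReal.ofReal (δ / 6 * B) * V) =
        ENNReal.ofReal (3 * (δ / 6 * B)) * V := by
      rw [← mul_assoc, ← ENNReal.ofReal_mul (by positivity)]
    rw [c1, c2, c3, ← add_mul, ← add_mul, ← mul_assoc (ENNReal.ofReal δ), ← ENNReal.ofReal_add (by positivity) (by positivity),
      ← ENNReal.ofReal_add (by positivity) (by positivity), ← ENNReal.ofReal_mul hδ.le]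
    refine mul_le_mul_left (ENNReal.ofReal_le_ofReal ?_) _
    have h9 := mul_le_mul_of_nonneg_right h2 hB.le
    linarith
  have e6 := (ENNReal.mul_le_mul_iff_left hBV0 hBVt).1 hfin
  exact (ENNReal.ofReal_le_ofReal_iff hδ.le).1 e6

/-- the uniform measure on a bounded set of positive volume -/
theorem adm_ind {K : Set (Eu (Fin n))} (hKm : MeasurableSet K) (hKb : Bornology.IsBounded K)
    (hKv : 0 < volume K) : Adm (ind K) := by
  have hfin : volume K ≠ ⊤ := hKb.measure_lt_top.ne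
  have hind : Measurable (ind K) := measurable_const.indicator hKm
  obtain ⟨M, hM⟩ := hKb.exists_norm_le
  refine ⟨fun x => indicator_nonneg (fun _ _ => zero_le_one) x, ?_, ?_, hind⟩
  · have e1 : (fun x => (1 + ‖x‖ ^ 2) * ind K x) = K.indicator fun x => 1 + ‖x‖ ^ 2 := by
      funext x
      unfold ind
      by_cases hx : x ∈ K
      · simp [hx]
      · simp [hx]
    rw [e1, integrable_indicator_iff hKm]
    refine Measure.integrableOn_of_bounded (M := 1 + M ^ 2) hfin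
      (by fun_prop) ?_
    refine (ae_restrict_iff' hKm).2 (Eventually.of_forall fun x hx => ?_)
    rw [Real.norm_eq_abs, abs_of_nonneg (by positivity)]
    have := pow_le_pow_left₀ (norm_nonneg _) (hM x hx) 2
    linarith
  · have e2 : ∫ x, ind K x = (volume K).toReal := by
      unfold ind
      rw [integral_indicator hKm, setIntegral_const, smul_eq_mul, mul_one]
      rfl
    rw [e2]
    exact ENNReal.toReal_pos hKv.ne' hfin

theorem adm_mix (ρ : Measure ℝ) (K : Set (Eu (Fin n))) (w : Eu (Fin n) → ℝ) (B : ℝ)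
    (hB : 0 < B) (hρ : ρ univ = ENNReal.ofReal B)
    (hm3 : ∫⁻ r, ENNReal.ofReal (r ^ 2) ∂ρ ≠ ⊤)
    (hKm : MeasurableSet K) (hKb : Bornology.IsBounded K) (hKv : 0 < volume K)
    (hw0 : ∀ x, 0 ≤ w x) (hwm : Measurable w)
    (mix : ∀ F : Eu (Fin n) → ℝ≥0∞, Measurable F → ∫⁻ x, F x * ENNReal.ofReal (w x) =
      ∫⁻ r, (∫⁻ y in K, F (r • y)) ∂ρ) : Adm w := by
  have hfin : volume K ≠ ⊤ := hKb.measure_lt_top.ne
  obtain ⟨M, hM⟩ := hKb.exists_norm_le
  have hint : Integrable fun x => (1 + ‖x‖ ^ 2) * w x := by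
    refine ⟨((measurable_const.add (measurable_norm.pow_const 2)).mul hwm).aestronglyMeasurable, ?_⟩
    rw [hasFiniteIntegral_iff_ofReal (Eventually.of_forall fun x =>
      mul_nonneg (by positivity) (hw0 x))]
    have e1 : ∀ x : Eu (Fin n), ENNReal.ofReal ((1 + ‖x‖ ^ 2) * w x) =
        ENNReal.ofReal (1 + ‖x‖ ^ 2) * ENNReal.ofReal (w x) :=
      fun x => ENNReal.ofReal_mul (by positivity)
    simp only [e1]
    rw [mix (fun x => ENNReal.ofReal (1 + ‖x‖ ^ 2)) (by fun_prop)]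
    have e2 : ∀ r : ℝ, ∫⁻ y in K, ENNReal.ofReal (1 + ‖r • y‖ ^ 2) ≤
        (1 + ENNReal.ofReal (M ^ 2) * ENNReal.ofReal (r ^ 2)) * volume K := by
      intro r
      rw [← setLIntegral_const]
      refine setLIntegral_mono' hKm fun y hy => ?_
      rw [← ENNReal.ofReal_one, ← ENNReal.ofReal_mul (sq_nonneg _),
        ← ENNReal.ofReal_add zero_le_one (by positivity)]
      refine ENNReal.ofReal_le_ofReal ?_
      rw [norm_smul, mul_pow, Real.norm_eq_abs, sq_abs]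
      have := pow_le_pow_left₀ (norm_nonneg _) (hM y hy) 2
      nlinarith [mul_le_mul_of_nonneg_left this (sq_nonneg r)]
    refine (lintegral_mono e2).trans_lt ?_
    rw [lintegral_mul_const' _ _ hfin, lintegral_add_left measurable_const, lintegral_const,
      lintegral_const_mul' _ _ ENNReal.ofReal_ne_top, hρ]
    exact ENNReal.mul_lt_top (ENNReal.add_lt_top.2 ⟨by simp,
      ENNReal.mul_lt_top ENNReal.ofReal_lt_top (lt_top_iff_ne_top.2 hm3)⟩)
      (lt_top_iff_ne_top.2 hfin)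
  have h1i : Integrable w := by
    refine Integrable.mono' hint hwm.aestronglyMeasurable (Eventually.of_forall fun x => ?_)
    rw [Real.norm_eq_abs, abs_of_nonneg (hw0 x)]
    nlinarith [hw0 x, sq_nonneg ‖x‖, mul_nonneg (sq_nonneg ‖x‖) (hw0 x)]
  refine ⟨hw0, hint, ?_, hwm⟩
  have e3 : ENNReal.ofReal (∫ x, w x) = ENNReal.ofReal B * volume K := by
    rw [ofReal_integral_eq_lintegral_ofReal h1i (Eventually.of_forall hw0)]
    have := mix (fun _ => 1) measurable_const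
    simp only [one_mul, lintegral_const, Measure.restrict_apply_univ] at this
    rw [this, hρ, mul_comm]
  have e4 : 0 < ENNReal.ofReal (∫ x, w x) := by
    rw [e3]
    exact ENNReal.mul_pos (ENNReal.ofReal_pos.2 hB).ne' hKv.ne'
  exact ENNReal.ofReal_pos.1 e4

theorem rad (h1 : S_MIX) (h2 : S_GAM) : S_RAD := by
  intro p δ κ hp hδ hκ
  have hp0 : 0 < p := by linarith
  have hκ'0 : 0 < min (κ / 2) (Real.sqrt (δ / (6 * (1 + p)))) :=
    lt_min (by positivity) (Real.sqrt_pos.2 (by positivity))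
  refine ⟨min (κ / 2) (Real.sqrt (δ / (6 * (1 + p)))), hκ'0, ?_⟩
  intro n Φ hn hΦ
  have hKm : MeasurableSet {x | Φ x ≤ 1} := hΦ.meas measurableSet_Iic
  obtain ⟨R, B, hR, hB, g1, g2, g3, _⟩ := h2 p n hp hn
  have hβ : Measurable fun r : ℝ =>
      ENNReal.ofReal (p * r ^ ((n : ℝ) + p - 1) * Real.exp (-(r ^ p))) := by fun_prop
  have hρi : ∀ F : ℝ → ℝ≥0∞, ∫⁻ r, F r ∂((volume.restrict (Ioi (0 : ℝ))).withDensity fun r : ℝ =>
      ENNReal.ofReal (p * r ^ ((n : ℝ) + p - 1) * Real.exp (-(r ^ p)))) =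
      ∫⁻ r in Ioi (0 : ℝ), ENNReal.ofReal (p * r ^ ((n : ℝ) + p - 1) * Real.exp (-(r ^ p))) * F r := by
    intro F
    rw [lintegral_withDensity_eq_lintegral_mul_non_measurable _ hβ
      (Eventually.of_forall fun r => ENNReal.ofReal_lt_top)]
    rfl
  have hρ : ((volume.restrict (Ioi (0 : ℝ))).withDensity fun r : ℝ =>
      ENNReal.ofReal (p * r ^ ((n : ℝ) + p - 1) * Real.exp (-(r ^ p)))) univ =
      ENNReal.ofReal B := by
    rw [← lintegral_one, hρi]
    simp only [mul_one]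
    exact g1
  have hm2 : ∫⁻ r, ENNReal.ofReal ((r - R) ^ 2) ∂((volume.restrict (Ioi (0 : ℝ))).withDensity
      fun r : ℝ => ENNReal.ofReal (p * r ^ ((n : ℝ) + p - 1) * Real.exp (-(r ^ p)))) ≤
      ENNReal.ofReal (p / n * R ^ 2 * B) := by
    rw [hρi]
    simp only [mul_comm]
    simp only [mul_comm] at g2
    exact g2
  have hm3 : ∫⁻ r, ENNReal.ofReal (r ^ 2) ∂((volume.restrict (Ioi (0 : ℝ))).withDensity
      fun r : ℝ => ENNReal.ofReal (p * r ^ ((n : ℝ) + p - 1) * Real.exp (-(r ^ p)))) ≤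
      ENNReal.ofReal (4 * R ^ 2 * B) := by
    rw [hρi]
    simp only [mul_comm]
    simp only [mul_comm] at g3
    exact g3
  have hw0 : ∀ x, 0 ≤ wPhi Φ x := by
    intro x
    unfold wPhi
    split_ifs
    · exact le_rfl
    · exact (Real.exp_pos _).le
  have hwm : Measurable (wPhi Φ) := by
    unfold wPhi
    refine Measurable.ite (hΦ.meas (measurableSet_singleton ⊤)) measurable_const ?_
    exact Real.measurable_exp.comp (hΦ.meas.ennreal_toReal.neg)
  have mix : ∀ F : Eu (Fin n) → ℝ≥0∞, Measurable F → ∫⁻ x, F x * ENNReal.ofReal (wPhi Φ x) =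
      ∫⁻ r, (∫⁻ y in {x | Φ x ≤ 1}, F (r • y)) ∂((volume.restrict (Ioi (0 : ℝ))).withDensity
      fun r : ℝ => ENNReal.ofReal (p * r ^ ((n : ℝ) + p - 1) * Real.exp (-(r ^ p)))) := by
    intro F hF
    rw [hρi]
    exact h1 p n Φ hp hn hΦ F hF
  have hA := adm_mix _ {x | Φ x ≤ 1} (wPhi Φ) B hB hρ (ne_top_of_le_ne_top ENNReal.ofReal_ne_top hm3)
    hKm hΦ.bdd hΦ.vol hw0 hwm mix
  have hI := adm_ind hKm hΦ.bdd hΦ.vol
  refine ⟨hA, hI, fun hc => ?_⟩
  refine core _ {x | Φ x ≤ 1} (wPhi Φ) B R p κ _ δ hn hB hR hp0.le hκ'0 hδ (min_le_left _ _) ?_ hρ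
    hm2 hm3 hKm hΦ.bdd.measure_lt_top.ne hI hA mix hc
  have e1 : (min (κ / 2) (Real.sqrt (δ / (6 * (1 + p))))) ^ 2 ≤ δ / (6 * (1 + p)) := by
    refine (pow_le_pow_left₀ hκ'0.le (min_le_right _ _) 2).trans (le_of_eq ?_)
    exact Real.sq_sqrt (by positivity)
  calc _ ≤ δ / (6 * (1 + p)) * (6 * (1 + p)) := mul_le_mul_of_nonneg_right e1 (by positivity)
    _ = δ := by field_simp

end Pool.Agent.Y427.PV
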